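import Mathlib
import Pool.Agent.R64.EGdeg
import Pool.Agent.R64.EGUpper
import Pool.Agent.R64.EGLower

/-!
# The graphicality threshold `N(k,s,d)` in closed form

With `q = ⌊(k-s+d)/(2d)⌋` and `M = ⌊(k+s+1)²/4⌋ - q (k - s - q d)`,
`N(k,s,d) = ⌊(M-2)/s⌋ + 1` for all `k > s ≥ 1`, `1 ≤ d ≤ k - s`, except `(k,s,d) = (2,1,1)`, where
every list is graphic.
-/

set_option autoImplicit false

namespace Pool.Agent.Results.MP_5122c5_co.ClosedFormula

open Finset Pool.Agent.R64 Pool.Agent.R64.Phi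

/-- The list `a 0 ≥ a 1 ≥ ⋯ ≥ a (n-1)` belongs to `𝓛(k,s,d)`: it is nonincreasing, its largest term
is `k`, its smallest term is `s`, its sum is even, and consecutive terms differ by at most `d`. -/
def IsListIn (k s d : ℕ) {n : ℕ} (a : Fin n → ℕ) : Prop :=
  (∀ i j, i ≤ j → a j ≤ a i) ∧ (∃ i, a i = k) ∧ (∀ i, a i ≤ k) ∧ (∃ i, a i = s) ∧
    (∀ i, s ≤ a i) ∧ Even (∑ i, a i) ∧ ∀ i j : Fin n, j.val = i.val + 1 → a i - a j ≤ d

/-- The list is the degree list of a simple graph. -/
def IsGraphic {n : ℕ} (a : Fin n → ℕ) : Prop :=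
  ∃ G : SimpleGraph (Fin n), ∀ i, {j | G.Adj i j}.ncard = a i

/-- The graphicality threshold `N(k,s,d)`. -/
noncomputable def threshold (k s d : ℕ) : ℕ :=
  sInf {N | ∀ n, N ≤ n → ∀ a : Fin n → ℕ, IsListIn k s d a → IsGraphic a}

/-- The closed formula. -/
def formula (k s d : ℕ) : ℕ :=
  ((k + s + 1) ^ 2 / 4 - (k - s + d) / (2 * d) * (k - s - (k - s + d) / (2 * d) * d) - 2) / s + 1

variable {k s d n : ℕ}

theorem sum_lt' {n r m : ℕ} (h : n = r + m) (g : ℕ → ℕ) :
    ∑ i ∈ univ.filter (fun i : Fin n => i.val < r), g i.val = ∑ i ∈ range r, g i := by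
  subst h
  exact EGLower.sum_lt r m g

theorem sum_ge' {n r m : ℕ} (h : n = r + m) (g : ℕ → ℕ) :
    ∑ i ∈ univ.filter (fun i : Fin n => ¬ i.val < r), g i.val = ∑ j ∈ range m, g (r + j) := by
  subst h
  exact EGLower.sum_ge r m g

/-- Long lists are graphic. -/
theorem graphic_of_long (hs1 : 1 ≤ s) (hsk : s < k) (hd : 1 ≤ d) (hdk : d ≤ k - s)
    (a : Fin n → ℕ) (ha : IsListIn k s d a) (hn : EGUpper.bigM k s d ≤ s * n + 1) :
    IsGraphic a := by
  obtain ⟨h1, ⟨i0, h2⟩, h3, ⟨i1, h4⟩, h5, h6, h7⟩ := ha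
  have hnpos : 0 < n := i0.pos
  let f : ℕ → ℕ := fun i => if h : i < n then a ⟨i, h⟩ else 0
  have hf : ∀ i : Fin n, f i.val = a i := fun i => dif_pos i.isLt
  have hf' : ∀ i (h : i < n), f i = a ⟨i, h⟩ := fun i h => dif_pos h
  have hanti : ∀ i j, i ≤ j → j < n → f j ≤ f i := by
    intro i j hij hj
    rw [hf' i (by omega), hf' j hj]
    exact h1 _ _ (Fin.mk_le_mk.mpr hij)
  have h0 : f 0 = k := by
    rw [hf' 0 hnpos]
    refine le_antisymm (h3 _) ?_
    rw [← h2]
    exact h1 _ _ (Fin.mk_le_mk.mpr (Nat.zero_le _))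
  have hlast : f (n - 1) = s := by
    rw [hf' (n - 1) (by omega)]
    refine le_antisymm ?_ (h5 _)
    rw [← h4]
    refine h1 _ _ ?_
    rw [Fin.le_def]
    show i1.val ≤ n - 1
    omega
  have hgap : ∀ i, i + 1 < n → f i ≤ f (i + 1) + d := by
    intro i hi
    rw [hf' i (by omega), hf' (i + 1) hi]
    have := h7 ⟨i, by omega⟩ ⟨i + 1, hi⟩ rfl
    omega
  have hev : Even (∑ i ∈ range n, f i) := by
    rw [← Fin.sum_univ_eq_sum_range, sum_congr rfl fun i _ => hf i]
    exact h6
  obtain ⟨G, hG⟩ := EGdeg.erdosGallai a (fun i j hij => h1 i j hij) h6 (by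
    intro r
    have hu := EGUpper.upper (r := r.val) hd hdk hsk hs1 hanti h0 hlast hgap hev hn (by omega)
    have hnr : n = r.val + 1 + (n - (r.val + 1)) := by omega
    have e1 : ∑ i ∈ Finset.Iic r, a i = ∑ i ∈ range (r.val + 1), f i := by
      rw [← sum_lt' hnr f]
      refine sum_congr ?_ fun i _ => (hf i).symm
      ext i
      rw [mem_Iic, mem_filter, Fin.le_def]
      simp only [mem_univ, true_and]
      omega
    have e2 : ∑ i ∈ Finset.Ioi r, min (a i) (r.val + 1) =
        ∑ j ∈ range (n - (r.val + 1)), min (f (r.val + 1 + j)) (r.val + 1) := by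
      rw [← sum_ge' hnr (fun i => min (f i) (r.val + 1))]
      refine sum_congr ?_ fun i _ => by rw [hf i]
      ext i
      rw [mem_Ioi, mem_filter, Fin.lt_def]
      simp only [mem_univ, true_and]
      omega
    rw [e1, e2]
    exact hu)
  refine ⟨G, fun i => ?_⟩
  rw [← hG i]
  unfold EGdeg.dg
  rw [← Set.ncard_coe_finset]
  congr 1
  ext j
  rw [Finset.mem_coe, EGdeg.mem_nbr]
  rfl

theorem half_mul (W : ℕ) : W / 2 * (W - W / 2) = W ^ 2 / 4 := by
  rcases Nat.even_or_odd' W with ⟨t, rfl | rfl⟩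
  · have e1 : 2 * t / 2 = t := by omega
    have e2 : 2 * t - t = t := by omega
    have e3 : (2 * t) ^ 2 = t * t * 4 := by ring
    rw [e1, e2]
    omega
  · have e1 : (2 * t + 1) / 2 = t := by omega
    have e2 : 2 * t + 1 - t = t + 1 := by omega
    have e3 : (2 * t + 1) ^ 2 = t * (t + 1) * 4 + 1 := by ring
    rw [e1, e2]
    omega

/-- The extremal lists in the main case. -/
theorem exists_bad (hs1 : 1 ≤ s) (hsk : s < k) (hd : 1 ≤ d) (hdk : d ≤ k - s)
    (hM : s * k + s + 2 ≤ EGUpper.bigM k s d) :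
    ∃ a : Fin ((EGUpper.bigM k s d - 2) / s) → ℕ, IsListIn k s d a ∧ ¬ IsGraphic a := by
  obtain ⟨M, hMdef⟩ : ∃ M, M = EGUpper.bigM k s d := ⟨_, rfl⟩
  rw [← hMdef] at hM ⊢
  obtain ⟨n, hn⟩ : ∃ n, n = (M - 2) / s := ⟨_, rfl⟩
  rw [← hn]
  have hnk : k + 1 ≤ n := by
    rw [hn, Nat.le_div_iff_mul_le (by omega)]
    have : (k + 1) * s = s * k + s := by ring
    omega
  have hsn : s * n ≤ M - 2 := by rw [hn]; exact Nat.mul_div_le _ _
  -- parameters
  obtain ⟨B, hB⟩ : ∃ B, B = (k - s - d) / 2 := ⟨_, rfl⟩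
  obtain ⟨A, hA⟩ : ∃ A, A = (k - s - d + 1) / 2 := ⟨_, rfl⟩
  obtain ⟨u, hu⟩ : ∃ u, u = s + d + B := ⟨_, rfl⟩
  obtain ⟨R, hR⟩ : ∃ R, R = (k + s + 1) / 2 - 1 := ⟨_, rfl⟩
  obtain ⟨e, he⟩ : ∃ e, e = (M - s * n) % 2 := ⟨_, rfl⟩
  obtain ⟨t, ht⟩ : ∃ t, t = (M - s * n) / 2 := ⟨_, rfl⟩
  obtain ⟨c, hc⟩ : ∃ c, c = (A + d - 1) / d := ⟨_, rfl⟩
  obtain ⟨m, hm⟩ : ∃ m, n = R + 1 + m := ⟨n - (R + 1), by omega⟩
  subst hm
  have hku : k - u = A := by omega
  have hus : u - s - d = B := by omega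
  have he1 : e = 1 → 2 ≤ s := by
    intro he1
    by_contra hs2
    have : s = 1 := by omega
    subst this
    rw [Nat.div_one] at hn
    omega
  have hcA : c ≤ A := by
    rw [hc, Nat.div_le_iff_le_mul_add_pred (by omega)]
    have : A ≤ d * A := Nat.le_mul_of_pos_left _ (by omega)
    omega
  have hc1 : A ≤ c * d := by
    have h1 := Nat.lt_mul_div_succ (A + d - 1) (show 0 < d by omega)
    rw [← hc] at h1
    have h2 : d * (c + 1) = c * d + d := by ring
    omega
  have hc2 : c = 0 ∨ (c - 1) * d < A := by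
    rcases Nat.eq_zero_or_pos c with h | h
    · exact Or.inl h
    · right
      have h1 : c * d ≤ A + d - 1 := by rw [hc]; exact Nat.div_mul_le_self _ _
      obtain ⟨c', rfl⟩ : ∃ c', c = c' + 1 := ⟨c - 1, by omega⟩
      have h2 : (c' + 1) * d = c' * d + d := by ring
      rw [Nat.add_sub_cancel]
      omega
  have hyp : EGLower.Hyp k s d u R (R - c) e c := by
    refine ⟨hd, by omega, by omega, by omega, hsk, by rw [hku]; exact hc1, by rw [hku]; exact hc2,
      by omega, ?_⟩
    intro h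
    have := he1 h
    omega
  have hBm : B ≤ m * d := by
    have : m ≤ m * d := Nat.le_mul_of_pos_right _ (by omega)
    omega
  have hBm' : B ≤ (m - 1) * d := by
    have : m - 1 ≤ (m - 1) * d := Nat.le_mul_of_pos_right _ (by omega)
    omega
  have htop := EGLower.lst_top_sum hyp
  have htail := EGLower.lst_tail_sum (k := k) (s := s) (d := d) (u := u) (R := R) (p := R - c)
    (e := e) hd (m := m) (by rw [hus]; exact hBm)
  rw [hku] at htop
  rw [hus] at htail
  -- the value of `M`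
  have hMval : M + phi d A + phi d B = (R + 1) * (k + s + 1 - (R + 1)) := by
    have h1 := EGUpper.bigM_eq (k := k) (s := s) hd hdk
    rw [← hMdef] at h1
    have h2 := phi_balanced hd (k - s - d)
    rw [← hB, ← hA] at h2
    have h3 := half_mul (k + s + 1)
    have h4 : (k + s + 1) / 2 = R + 1 := by omega
    rw [h4] at h3
    have h5 : (((k + s + 1) ^ 2 / 4 : ℕ) : ℤ) = ((k + s + 1) * (k + s + 1) : ℤ) / 4 := by
      push_cast
      rw [sq]
    rw [← h5, ← h3, ← h2] at h1
    obtain ⟨X, hX⟩ : ∃ X, X = (R + 1) * (k + s + 1 - (R + 1)) := ⟨_, rfl⟩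
    rw [← hX] at h1 ⊢
    omega
  have hMt : s * (R + 1 + m) + e + 2 * t = M := by omega
  have ht1 : 1 ≤ t := by omega
  have hRW : (R + 1) * (k + s + 1 - (R + 1)) + (R + 1) * (R + 1) = (R + 1) * k + (R + 1) * s + (R + 1) := by
    obtain ⟨x, hx⟩ : ∃ x, k + s + 1 = R + 1 + x := ⟨k + s + 1 - (R + 1), by omega⟩
    have e1 : k + s + 1 - (R + 1) = x := by omega
    rw [e1]
    calc (R + 1) * x + (R + 1) * (R + 1) = (R + 1) * (R + 1 + x) := by ring
      _ = (R + 1) * (k + s + 1) := by rw [← hx]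
      _ = _ := by ring
  obtain ⟨St, hSt⟩ : ∃ St, St = ∑ j ∈ range (R + 1), EGLower.lst k s d u R (R - c) e j := ⟨_, rfl⟩
  obtain ⟨Sl, hSl⟩ : ∃ Sl, Sl = ∑ j ∈ range m, EGLower.lst k s d u R (R - c) e (R + 1 + j) := ⟨_, rfl⟩
  rw [← hSt] at htop
  rw [← hSl] at htail
  have hkey : St = (R + 1) * R + Sl + 2 * t := by
    have e1 : (R + 1) * (R + 1) = (R + 1) * R + (R + 1) := by ring
    have e2 : s * (R + 1 + m) = (R + 1) * s + s * m := by ring
    rw [e2] at hMt
    rw [e1] at hRW
    omega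
  refine ⟨fun i => EGLower.lst k s d u R (R - c) e i.val, ?_, ?_⟩
  · have h0 := EGLower.lst_zero hyp
    have hl : EGLower.lst k s d u R (R - c) e (R + 1 + (m - 1)) = s := by
      rw [EGLower.lst_tail, hus]
      omega
    have hl' : R + m = R + 1 + (m - 1) := by omega
    refine ⟨fun i j hij => EGLower.lst_anti hyp hij, ⟨⟨0, by omega⟩, h0⟩, fun i => ?_,
      ⟨⟨R + m, by omega⟩, by rw [← hl'] at hl; exact hl⟩, fun i => ?_, ?_, fun i j hij => ?_⟩
    · exact (EGLower.lst_anti hyp (Nat.zero_le _)).trans h0.le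
    · calc s = EGLower.lst k s d u R (R - c) e (R + 1 + (m - 1)) := hl.symm
        _ ≤ _ := EGLower.lst_anti hyp (by omega)
    · rw [Fin.sum_univ_eq_sum_range (fun i => EGLower.lst k s d u R (R - c) e i), sum_range_add,
        ← hSt, ← hSl, hkey]
      have h1 : Even ((R + 1) * R) := by
        rw [mul_comm]
        exact Nat.even_mul_succ_self R
      obtain ⟨x, hx⟩ := h1
      exact ⟨x + Sl + t, by omega⟩
    · have := (EGLower.lst_anti_step hyp i.val).2
      rw [← hij] at this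
      simp only
      omega
  · rintro ⟨G, hG⟩
    have h1 := EGLower.eg_necessary G (EGLower.lst k s d u R (R - c) e) hG
    rw [← hSt, hkey, Nat.add_sub_cancel] at h1
    have h2 : ∑ j ∈ range m, min (EGLower.lst k s d u R (R - c) e (R + 1 + j)) (R + 1) ≤ Sl := by
      rw [hSl]
      exact sum_le_sum fun j _ => min_le_left _ _
    omega

/-- A list with a term `≥ n` is not graphic. -/
theorem not_graphic_of_large {a : Fin n → ℕ} {i : Fin n} (h : n ≤ a i) : ¬ IsGraphic a := by
  rintro ⟨G, hG⟩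
  have h1 : {j | G.Adj i j}.ncard < n := by
    have h2 : {j | G.Adj i j} ⊂ Set.univ := by
      rw [Set.ssubset_univ_iff]
      intro h3
      have : i ∈ {j | G.Adj i j} := by rw [h3]; trivial
      exact G.irrefl this
    have h4 := Set.ncard_lt_ncard h2 (Set.toFinite _)
    rwa [Set.ncard_univ, Nat.card_eq_fintype_card, Fintype.card_fin] at h4
  rw [hG i] at h1
  omega

/-- The extremal lists when `k - s = 1`. -/
theorem exists_bad_one (hs : 2 ≤ s) :
    ∃ a : Fin (s + 1) → ℕ, IsListIn (s + 1) s 1 a ∧ ¬ IsGraphic a := by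
  refine ⟨fun i => if i.val < 2 then s + 1 else s, ⟨?_, ?_, ?_, ?_, ?_, ?_, ?_⟩, ?_⟩
  · intro i j hij
    rw [Fin.le_def] at hij
    simp only
    split_ifs <;> omega
  · exact ⟨⟨0, by omega⟩, rfl⟩
  · intro i
    simp only
    split_ifs <;> omega
  · exact ⟨⟨s, by omega⟩, if_neg (by simp only; omega)⟩
  · intro i
    simp only
    split_ifs <;> omega
  · rw [Fin.sum_univ_eq_sum_range (fun i => if i < 2 then s + 1 else s)]
    obtain ⟨t, rfl⟩ : ∃ t, s = t + 2 := ⟨s - 2, by omega⟩
    rw [show t + 2 + 1 = 2 + (t + 1) by ring, sum_range_add]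
    have h1 : ∑ i ∈ range (t + 1), (if 2 + i < 2 then 2 + (t + 1) else t + 2) =
        (t + 1) * (t + 2) := by
      rw [sum_congr rfl fun i _ => if_neg (by omega)]
      simp
    rw [h1]
    simp only [sum_range_succ, sum_range_zero]
    have h2 : Even ((t + 1) * (t + 1 + 1)) := Nat.even_mul_succ_self _
    obtain ⟨x, hx⟩ := h2
    have h3 : (t + 1) * (t + 2) = (t + 1) * (t + 1 + 1) := by ring
    refine ⟨2 + (t + 1) + x, ?_⟩
    norm_num
    omega
  · intro i j hij
    simp only
    split_ifs <;> omega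
  · exact not_graphic_of_large (i := ⟨0, by omega⟩) (le_of_eq rfl)

/-- The extremal lists when `k - s = 2` and `d = 1`. -/
theorem exists_bad_two (hs : 1 ≤ s) :
    ∃ a : Fin (s + 2) → ℕ, IsListIn (s + 2) s 1 a ∧ ¬ IsGraphic a := by
  refine ⟨fun i => if i.val = 0 then s + 2 else if i.val = s + 1 then s else s + 1,
    ⟨?_, ?_, ?_, ?_, ?_, ?_, ?_⟩, ?_⟩
  · intro i j hij
    rw [Fin.le_def] at hij
    have := i.isLt
    have := j.isLt
    simp only
    split_ifs <;> omega
  · exact ⟨⟨0, by omega⟩, rfl⟩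
  · intro i
    simp only
    split_ifs <;> omega
  · exact ⟨⟨s + 1, by omega⟩, by simp⟩
  · intro i
    simp only
    split_ifs <;> omega
  · rw [Fin.sum_univ_eq_sum_range
      (fun i => if i = 0 then s + 2 else if i = s + 1 then s else s + 1)]
    rw [sum_range_succ, sum_range_succ']
    have h1 : ∑ i ∈ range s, (if i + 1 = 0 then s + 2 else if i + 1 = s + 1 then s else s + 1) =
        s * (s + 1) := by
      rw [sum_congr rfl (g := fun _ => s + 1)]
      · simp
      · intro i hi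
        rw [mem_range] at hi
        rw [if_neg (by omega), if_neg (by omega)]
    rw [h1, if_pos rfl, if_neg (by omega), if_pos rfl]
    have h2 : Even (s * (s + 1)) := Nat.even_mul_succ_self _
    obtain ⟨x, hx⟩ := h2
    exact ⟨x + s + 1, by omega⟩
  · intro i j hij
    have := j.isLt
    simp only
    split_ifs <;> omega
  · exact not_graphic_of_large (i := ⟨0, by omega⟩) (le_of_eq rfl)

theorem formula_eq : formula k s d = (EGUpper.bigM k s d - 2) / s + 1 := rfl

theorem exists_bad_all (hs1 : 1 ≤ s) (hsk : s < k) (hd : 1 ≤ d) (hdk : d ≤ k - s)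
    (hne : ¬ (k = 2 ∧ s = 1)) :
    ∃ a : Fin (formula k s d - 1) → ℕ, IsListIn k s d a ∧ ¬ IsGraphic a := by
  rw [formula_eq, Nat.add_sub_cancel]
  have hge := EGUpper.bigM_ge hd hdk hsk
  rcases Nat.lt_or_ge (k - s) 3 with h3 | h3
  · -- `k - s ≤ 2`
    obtain ⟨K, rfl⟩ : ∃ K, k = s + K := ⟨k - s, by omega⟩
    rw [Nat.add_sub_cancel_left] at h3 hdk
    interval_cases K
    · omega
    · -- `K = 1`
      have hd1 : d = 1 := by omega
      subst hd1
      have e1 : (EGUpper.bigM (s + 1) s 1 - 2) / s = s + 1 := by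
        have e2 : EGUpper.bigM (s + 1) s 1 = (s + 1) * (s + 1) := by
          unfold EGUpper.bigM
          have : (s + 1 + s + 1) ^ 2 = (s + 1) * (s + 1) * 4 := by ring
          rw [Nat.add_sub_cancel_left]
          norm_num
          omega
        rw [e2]
        have e3 : (s + 1) * (s + 1) - 2 = s * (s + 1) + (s - 1) := by
          have : (s + 1) * (s + 1) = s * (s + 1) + (s + 1) := by ring
          omega
        rw [e3, Nat.mul_add_div (by omega), Nat.div_eq_of_lt (by omega), add_zero]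
      rw [e1]
      exact exists_bad_one (by omega)
    · -- `K = 2`
      interval_cases d
      · have e1 : (EGUpper.bigM (s + 2) s 1 - 2) / s = s + 2 := by
          have e2 : EGUpper.bigM (s + 2) s 1 = s * (s + 2) + (s + 1) := by
            unfold EGUpper.bigM
            have : (s + 2 + s + 1) ^ 2 = (s * (s + 2) + (s + 2)) * 4 + 1 := by ring
            rw [Nat.add_sub_cancel_left]
            norm_num
            omega
          rw [e2]
          have e3 : s * (s + 2) + (s + 1) - 2 = s * (s + 2) + (s - 1) := by omega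
          rw [e3, Nat.mul_add_div (by omega), Nat.div_eq_of_lt (by omega), add_zero]
        rw [e1]
        exact exists_bad_two hs1
      · refine exists_bad hs1 hsk hd (by omega) ?_
        unfold EGUpper.bigM
        have : (s + 2 + s + 1) ^ 2 = (s * (s + 2) + (s + 2)) * 4 + 1 := by ring
        rw [Nat.add_sub_cancel_left]
        norm_num
        omega
  · exact exists_bad hs1 hsk hd hdk (by omega)

theorem graphic_of_formula_le (hs1 : 1 ≤ s) (hsk : s < k) (hd : 1 ≤ d) (hdk : d ≤ k - s)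
    (a : Fin n → ℕ) (ha : IsListIn k s d a) (hn : formula k s d ≤ n) : IsGraphic a := by
  refine graphic_of_long hs1 hsk hd hdk a ha ?_
  rw [formula_eq] at hn
  have h1 := Nat.lt_mul_div_succ (EGUpper.bigM k s d - 2) (show 0 < s by omega)
  have h2 : s * ((EGUpper.bigM k s d - 2) / s + 1) ≤ s * n := Nat.mul_le_mul_left _ hn
  omega

/-- **Theorem.** The graphicality threshold in closed form. -/
theorem result :
    (∀ k s d : ℕ, 1 ≤ s → s < k → 1 ≤ d → d ≤ k - s → ¬ (k = 2 ∧ s = 1) →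
      threshold k s d = formula k s d ∧
      (∀ n, formula k s d ≤ n → ∀ a : Fin n → ℕ, IsListIn k s d a → IsGraphic a) ∧
      ∃ a : Fin (formula k s d - 1) → ℕ, IsListIn k s d a ∧ ¬ IsGraphic a) ∧
    ∀ (n : ℕ) (a : Fin n → ℕ), IsListIn 2 1 1 a → IsGraphic a := by
  refine ⟨fun k s d hs1 hsk hd hdk hne => ?_, fun n a ha => ?_⟩
  · have h1 : ∀ n, formula k s d ≤ n → ∀ a : Fin n → ℕ, IsListIn k s d a → IsGraphic a :=
      fun n hn a ha => graphic_of_formula_le hs1 hsk hd hdk a ha hn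
    have h2 := exists_bad_all hs1 hsk hd hdk hne
    refine ⟨?_, h1, h2⟩
    apply le_antisymm
    · exact Nat.sInf_le h1
    · obtain ⟨a, ha1, ha2⟩ := h2
      by_contra hcon
      push Not at hcon
      have h3 : threshold k s d ∈
          {N | ∀ n, N ≤ n → ∀ a : Fin n → ℕ, IsListIn k s d a → IsGraphic a} :=
        Nat.sInf_mem ⟨_, h1⟩
      exact ha2 (h3 _ (by omega) a ha1)
  · -- `(k, s, d) = (2, 1, 1)`
    rcases Nat.lt_or_ge n 3 with hn | hn
    · exfalso
      obtain ⟨h1, ⟨i0, h2⟩, h3, ⟨i1, h4⟩, h5, h6, h7⟩ := ha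
      interval_cases n
      · exact i0.elim0
      · have : i0 = i1 := Subsingleton.elim _ _
        rw [this] at h2
        omega
      · rw [Fin.sum_univ_two] at h6
        have e1 := h3 0
        have e2 := h3 1
        have e3 := h5 0
        have e4 := h5 1
        obtain ⟨x, hx⟩ := h6
        have e5 : a i0 = a 0 ∨ a i0 = a 1 := by
          fin_cases i0
          · exact Or.inl rfl
          · exact Or.inr rfl
        have e6 : a i1 = a 0 ∨ a i1 = a 1 := by
          fin_cases i1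
          · exact Or.inl rfl
          · exact Or.inr rfl
        omega
    · exact graphic_of_formula_le le_rfl (by norm_num) le_rfl (by norm_num) a ha
        (le_trans (by decide) hn)

end Pool.Agent.Results.MP_5122c5_co.ClosedFormula
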