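import Mathlib
import Pool.Agent.R798.EGdeg

set_option autoImplicit false

namespace Pool.Agent.Results.MP_5122c5_co.Threshold

open Finset

/-- `Lst k s d n a`: the nonincreasing sequence `a` of `n` terms is a list with largest term `k`,
smallest term `s`, even sum and consecutive differences at most `d`. -/
def Lst (k s d n : ℕ) (a : Fin n → ℕ) : Prop :=
  Antitone a ∧ (∀ i, a i ≤ k) ∧ (∃ i, a i = k) ∧ (∀ i, s ≤ a i) ∧ (∃ i, a i = s) ∧
    Even (∑ i, a i) ∧ ∀ i j : Fin n, (j : ℕ) = (i : ℕ) + 1 → a i - a j ≤ d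

/-- `a` is the degree sequence of a simple graph on `n` vertices. -/
def Graphic {n : ℕ} (a : Fin n → ℕ) : Prop :=
  ∃ G : SimpleGraph (Fin n), ∀ i, (G.neighborSet i).ncard = a i

/-- half (rounded down) of `(k - s) / d` rounded up. -/
def hf (k s d : ℕ) : ℕ := ((k - s + d - 1) / d) / 2

/-- the value of the threshold. -/
def thr (k s d : ℕ) : ℕ :=
  ((k + s + 1) ^ 2 / 4 - hf k s d * (k - s - hf k s d * d) - 2) / s + 1

section Upper

variable {A : ℕ → ℕ} {k s d : ℕ}

theorem firstPart (h0 : A 0 = k) (hk : ∀ i, A i ≤ k) (hgap : ∀ i, A i ≤ A (i + 1) + d) (r : ℕ) :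
    ∀ p : ℕ, 2 * (p : ℤ) * ((k : ℤ) - A r) - d * (p * (p - 1)) ≤
      2 * ∑ i ∈ range (r + 1), ((k : ℤ) - A i) := by
  induction r with
  | zero =>
    intro p
    simp only [zero_add, sum_range_one, h0, sub_self, mul_zero, zero_sub]
    have : (0 : ℤ) ≤ (d : ℤ) * (p * (p - 1)) := by
      rcases p with _ | p
      · simp
      · push_cast
        rw [add_sub_cancel_right]
        positivity
    linarith
  | succ r ih =>
    intro p
    rw [sum_range_succ]
    have hk1 : (A (r + 1) : ℤ) ≤ k := by exact_mod_cast hk (r + 1)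
    have hg : (A r : ℤ) ≤ A (r + 1) + d := by exact_mod_cast hgap r
    rcases p with _ | p
    · have h1 := ih 0
      push_cast at h1 ⊢
      nlinarith
    · have h1 := ih p
      push_cast at h1 ⊢
      have hp : (0 : ℤ) ≤ p := by positivity
      nlinarith [mul_le_mul_of_nonneg_left hg hp]

theorem tailPart (hs : ∀ i, s ≤ A i) (hgap : ∀ i, A i ≤ A (i + 1) + d) (l : ℕ) :
    ∀ m : ℕ, A (m + l) = s → ∀ q : ℕ, 2 * (q : ℤ) * ((A m : ℤ) - s) - d * (q * (q - 1)) ≤
      2 * ∑ j ∈ range l, ((A (m + j) : ℤ) - s) := by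
  induction l with
  | zero =>
    intro m hm q
    rw [add_zero] at hm
    simp only [hm, sub_self, mul_zero, zero_sub, range_zero, sum_empty]
    have : (0 : ℤ) ≤ (d : ℤ) * (q * (q - 1)) := by
      rcases q with _ | q
      · simp
      · push_cast
        rw [add_sub_cancel_right]
        positivity
    linarith
  | succ l ih =>
    intro m hm q
    rw [sum_range_succ']
    have hs1 : (s : ℤ) ≤ A m := by exact_mod_cast hs m
    have hg : (A m : ℤ) ≤ A (m + 1) + d := by exact_mod_cast hgap m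
    have e : ∀ j, m + 1 + j = m + (j + 1) := fun j => by omega
    rcases q with _ | q
    · have h1 := ih (m + 1) (by rw [← hm]; congr 1; omega) 0
      simp only [e] at h1
      push_cast at h1 ⊢
      simp only [add_zero]
      nlinarith
    · have h1 := ih (m + 1) (by rw [← hm]; congr 1; omega) q
      simp only [e] at h1
      push_cast at h1 ⊢
      simp only [add_zero]
      have hp : (0 : ℤ) ≤ q := by positivity
      nlinarith [mul_le_mul_of_nonneg_left hg hp]

theorem gapMany (hgap : ∀ i, A i ≤ A (i + 1) + d) (i j : ℕ) : A i ≤ A (i + j) + j * d := by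
  induction j with
  | zero => simp
  | succ j ih =>
    have := hgap (i + j)
    have e : i + (j + 1) = i + j + 1 := by omega
    rw [e]
    nlinarith

theorem floorQ (M x : ℤ) : x * (M - x) ≤ M ^ 2 / 4 := by
  have h : x * (M - x) * 4 ≤ M ^ 2 := by nlinarith [sq_nonneg (M - 2 * x)]
  exact Int.le_ediv_of_mul_le (by norm_num) h

theorem sumConst (m : ℕ) (f : ℕ → ℤ) (c : ℤ) :
    ∑ j ∈ range m, (f j - c) = ∑ j ∈ range m, f j - m * c := by
  rw [sum_sub_distrib, sum_const, card_range, nsmul_eq_mul]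

theorem caseA (hk : ∀ i, A i ≤ k) (h0 : A 0 = k)
    (hs : ∀ i, s ≤ A i) (hgap : ∀ i, A i ≤ A (i + 1) + d) (r l : ℕ)
    (hn : A (r + 1 + l) = s)
    (hev : Even (∑ i ∈ range (r + 1), A i + ∑ j ∈ range l, A (r + 1 + j)))
    (hbad : (r + 1) * r + ∑ j ∈ range l, A (r + 1 + j) < ∑ i ∈ range (r + 1), A i) (h : ℕ) :
    (s : ℤ) * (r + 1 + l) + 2 ≤ ((k : ℤ) + s + 1) ^ 2 / 4 - h * ((k : ℤ) - s - h * d) := by
  have h1 := firstPart h0 hk hgap r h
  have h2 := tailPart hs hgap l (r + 1) hn h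
  rw [sumConst] at h2
  have h3 : ∑ i ∈ range (r + 1), ((k : ℤ) - A i) = (r + 1) * k - ∑ i ∈ range (r + 1), (A i : ℤ) := by
    rw [sum_sub_distrib, sum_const, card_range, nsmul_eq_mul]
    push_cast
    ring
  rw [h3] at h1
  have hg : (A r : ℤ) ≤ A (r + 1) + d := by exact_mod_cast hgap r
  have hg2 := mul_le_mul_of_nonneg_left hg (by positivity : (0 : ℤ) ≤ h)
  have hQ := floorQ ((k : ℤ) + s + 1) (r + 1)
  have hD : (r + 1) * r + ∑ j ∈ range l, A (r + 1 + j) + 2 ≤ ∑ i ∈ range (r + 1), A i := by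
    obtain ⟨x, hx⟩ := hev
    have hr : Even ((r + 1) * r) := by
      rw [mul_comm]
      exact Nat.even_mul_succ_self r
    obtain ⟨y, hy⟩ := hr
    omega
  have hD' : ((r : ℤ) + 1) * r + ∑ j ∈ range l, (A (r + 1 + j) : ℤ) + 2 ≤
      ∑ i ∈ range (r + 1), (A i : ℤ) := by exact_mod_cast hD
  nlinarith

/-- the polynomial inequality behind case B -/
theorem caseBpoly (K R r k s d h z c1 c3 u b Q : ℤ) (hK : K = k - s) (hR : R = r - s)
    (hR0 : 0 ≤ R) (hK1 : 1 ≤ K) (hd : 1 ≤ d) (hc1 : 0 ≤ c1) (hc3 : 0 ≤ c3)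
    (hb : R ≤ b) (hz : 1 ≤ z) (hz1 : z = 1 → R < b) (hh : 0 ≤ h)
    (hu : K - b - z * d ≤ u)
    (H1 : ∀ p : ℕ, 2 * (p : ℤ) * u - d * (p * (p - 1)) ≤ 2 * c1)
    (H3 : ∀ q : ℕ, 2 * (q : ℤ) * b - d * (q * (q + 1)) ≤ 2 * c3)
    (hQ : ∀ x : ℤ, x * (k + s + 1 - x) ≤ Q) :
    r * (k + s + 1 - r) - z * R - c1 - c3 + 1 ≤ Q - h * (K - h * d) := by
  subst hK hR
  by_cases hB : 2 * h + 1 ≤ z
  · have q1 := hQ (r + h)
    have q2 := hQ (r + h + 1)
    have m1 : (2 * h + 1) * (r - s) ≤ z * (r - s) := mul_le_mul_of_nonneg_right hB hR0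
    have m2 : h * h ≤ d * (h * h) := by nlinarith [mul_nonneg hh hh]
    have : 2 * (r * (k + s + 1 - r) - z * (r - s) - c1 - c3) + 1 ≤
        2 * (Q - h * (k - s - h * d)) := by nlinarith
    omega
  · rcases Int.even_or_odd' z with ⟨i, hi | hi⟩
    · -- z = 2 i
      have hi1 : 1 ≤ i := by omega
      obtain ⟨p, hp⟩ := Int.eq_ofNat_of_zero_le (show 0 ≤ h - i by omega)
      have e : h = p + i := by omega
      have a1 := H1 p
      have a3 := H3 p
      have a4 := mul_le_mul_of_nonneg_left hu (by positivity : (0 : ℤ) ≤ (p : ℤ))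
      have q1 := hQ (r + i)
      have m2 : i * i ≤ d * (i * i) := by nlinarith [mul_self_nonneg i]
      subst e hi
      nlinarith
    · -- z = 2 i + 1
      have hi0 : 0 ≤ i := by omega
      obtain ⟨p, hp⟩ := Int.eq_ofNat_of_zero_le (show 0 ≤ h - i - 1 by omega)
      have e : h = p + i + 1 := by omega
      have a1 := H1 p
      have a3 := H3 (p + 1)
      push_cast at a3
      have a4 := mul_le_mul_of_nonneg_left hu (by positivity : (0 : ℤ) ≤ (p : ℤ))
      have q1 := hQ (r + i + 1)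
      have m2 : i * i + 2 * i ≤ d * (i * i + 2 * i) := by nlinarith [mul_self_nonneg i]
      have m3 : 1 ≤ (b - (r - s)) + i := by
        rcases eq_or_lt_of_le hi0 with h5 | h5
        · have := hz1 (by omega)
          omega
        · omega
      subst e hi
      nlinarith

theorem caseB (hk : ∀ i, A i ≤ k) (h0 : A 0 = k) (hanti : Antitone A)
    (hs : ∀ i, s ≤ A i) (hgap : ∀ i, A i ≤ A (i + 1) + d) (hsk : s < k) (hd : 1 ≤ d) (r l : ℕ)
    (hsr : s ≤ r + 1) (hA : r + 1 < A (r + 1))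
    (hn : A (r + 1 + l) = s)
    (hbad : (r + 1) * r + ∑ j ∈ range l, min (A (r + 1 + j)) (r + 1) <
      ∑ i ∈ range (r + 1), A i) (h : ℕ) :
    (s : ℤ) * (r + 1 + l) + 2 ≤ ((k : ℤ) + s + 1) ^ 2 / 4 - h * ((k : ℤ) - s - h * d) := by
  classical
  have hex : ∃ j, A (r + 1 + j) < r + 1 ∨ l ≤ j := ⟨l, Or.inr le_rfl⟩
  obtain ⟨z, hz⟩ : ∃ z, z = Nat.find hex := ⟨_, rfl⟩
  have hz1 : A (r + 1 + z) < r + 1 ∨ l ≤ z := by rw [hz]; exact Nat.find_spec hex
  have hz2 : z ≤ l := by rw [hz]; exact Nat.find_min' hex (Or.inr le_rfl)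
  have hz3 : ∀ j, j < z → r + 1 ≤ A (r + 1 + j) ∧ j < l := by
    intro j hj
    rw [hz] at hj
    have := Nat.find_min hex hj
    push Not at this
    exact this
  obtain ⟨l', rfl⟩ := Nat.exists_eq_add_of_le hz2
  have hz4 : z ≠ 0 := by
    rintro rfl
    rcases hz1 with h1 | h1
    · simp only [add_zero] at h1
      omega
    · have : l' = 0 := by omega
      subst this
      simp only [add_zero] at hn
      omega
  obtain ⟨z0, rfl⟩ := Nat.exists_eq_succ_of_ne_zero hz4
  have hsum : ∑ j ∈ range (z0.succ + l'), min (A (r + 1 + j)) (r + 1) =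
      z0.succ * (r + 1) + ∑ j ∈ range l', A (r + 1 + z0.succ + j) := by
    rw [Finset.sum_range_add]
    congr 1
    · rw [Finset.sum_congr rfl (fun j hj => min_eq_right (hz3 j (mem_range.1 hj)).1), sum_const,
        card_range, smul_eq_mul]
    · apply Finset.sum_congr rfl
      intro j hj
      have hj' := mem_range.1 hj
      rw [← add_assoc]
      apply min_eq_left
      rcases hz1 with h1 | h1
      · exact (hanti (by omega : r + 1 + z0.succ ≤ r + 1 + z0.succ + j)).trans h1.le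
      · omega
  rw [hsum] at hbad
  have hc1 : ∑ i ∈ range (r + 1), ((k : ℤ) - A i) = (r + 1) * k - ∑ i ∈ range (r + 1), (A i : ℤ) := by
    rw [sum_sub_distrib, sum_const, card_range, nsmul_eq_mul]
    push_cast
    ring
  have hc1' : 0 ≤ ∑ i ∈ range (r + 1), ((k : ℤ) - A i) :=
    sum_nonneg (fun i _ => by have := hk i; omega)
  have hc3' : 0 ≤ ∑ j ∈ range l', ((A (r + 1 + z0.succ + j) : ℤ) - s) :=
    sum_nonneg (fun i _ => by have := hs (r + 1 + z0.succ + i); omega)
  have hg := gapMany hgap r (z0 + 1)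
  have e1 : r + (z0 + 1) = r + 1 + z0 := by omega
  rw [e1] at hg
  have hg' : (A r : ℤ) ≤ A (r + 1 + z0) + (z0 + 1) * d := by exact_mod_cast hg
  have hg2 := hgap (r + 1 + z0)
  have hg2' : (A (r + 1 + z0) : ℤ) ≤ A (r + 1 + z0 + 1) + d := by exact_mod_cast hg2
  have hkey := caseBpoly ((k : ℤ) - s) (((r : ℤ) + 1) - s) (r + 1) k s d h (z0 + 1)
    (∑ i ∈ range (r + 1), ((k : ℤ) - A i)) (∑ j ∈ range l', ((A (r + 1 + z0.succ + j) : ℤ) - s))
    ((k : ℤ) - A r) ((A (r + 1 + z0) : ℤ) - s) (((k : ℤ) + s + 1) ^ 2 / 4) rfl rfl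
    (by omega) (by omega) (by omega) hc1' hc3'
    (by have := (hz3 z0 (by omega)).1; omega) (by omega)
    (by
      intro h1
      have : z0 = 0 := by omega
      subst this
      simp only [add_zero]
      omega)
    (by omega) (by linarith) (fun p => firstPart h0 hk hgap r p)
    (by
      intro q
      have h1 := tailPart hs hgap l' (r + 1 + z0.succ) (by rw [← hn]; congr 1; omega) q
      have e2 : r + 1 + z0.succ = r + 1 + z0 + 1 := by omega
      rw [e2] at h1 ⊢
      have h2 := mul_le_mul_of_nonneg_left hg2' (by positivity : (0 : ℤ) ≤ (q : ℤ))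
      nlinarith)
    (fun x => floorQ _ x)
  rw [hc1, sumConst] at hkey
  have hD' : ((r : ℤ) + 1) * r + ((z0 + 1) * (r + 1) + ∑ j ∈ range l', (A (r + 1 + z0.succ + j) : ℤ)) + 1 ≤
      ∑ i ∈ range (r + 1), (A i : ℤ) := by
    have := Nat.succ_le_of_lt hbad
    exact_mod_cast this
  push_cast
  nlinarith

theorem caseC (hk : ∀ i, A i ≤ k)
    (hs : ∀ i, s ≤ A i) (hs1 : 1 ≤ s) (hsk : s < k) (hd : 1 ≤ d) (r l : ℕ)
    (hsr : r + 1 < s)
    (hbad : (r + 1) * r + ∑ j ∈ range l, min (A (r + 1 + j)) (r + 1) <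
      ∑ i ∈ range (r + 1), A i) (h : ℕ) :
    (s : ℤ) * (r + 1 + l) + 2 ≤ ((k : ℤ) + s + 1) ^ 2 / 4 - h * ((k : ℤ) - s - h * d) := by
  have h1 : ∑ j ∈ range l, min (A (r + 1 + j)) (r + 1) = l * (r + 1) := by
    rw [Finset.sum_congr rfl (fun j _ => min_eq_right ((hsr.le).trans (hs (r + 1 + j)))), sum_const,
        card_range, smul_eq_mul]
  have h2 : ∑ i ∈ range (r + 1), A i ≤ (r + 1) * k := by
    calc _ ≤ ∑ i ∈ range (r + 1), k := sum_le_sum (fun i _ => hk i)
      _ = _ := by rw [sum_const, card_range, smul_eq_mul]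
  rw [h1] at hbad
  have h3 : r + l < k := by
    by_contra hcon
    push Not at hcon
    have h4 : (r + 1) * k ≤ (r + 1) * r + l * (r + 1) := by nlinarith
    omega
  have h5 : (s : ℤ) * (r + 1 + l) ≤ s * k := by
    apply mul_le_mul_of_nonneg_left _ (by positivity)
    exact_mod_cast (by omega : r + 1 + l ≤ k)
  have h6 : (s : ℤ) * k + 2 + h * ((k : ℤ) - s - h * d) ≤ ((k : ℤ) + s + 1) ^ 2 / 4 := by
    have hd' : (1 : ℤ) ≤ d := by exact_mod_cast hd
    have hs1' : (1 : ℤ) ≤ s := by exact_mod_cast hs1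
    have hK : (1 : ℤ) ≤ k - s := by omega
    have m2 : (h : ℤ) * h ≤ d * (h * h) := by nlinarith [mul_self_nonneg (h : ℤ)]
    -- use a suitable x
    obtain ⟨y, hy⟩ := Int.even_or_odd' ((k : ℤ) - s)
    rcases hy with hy | hy
    · have q := floorQ ((k : ℤ) + s + 1) (y + s)
      have ek : (k : ℤ) = s + 2 * y := by omega
      rw [ek] at q ⊢
      nlinarith [mul_self_nonneg (y - h : ℤ)]
    · have q := floorQ ((k : ℤ) + s + 1) (y + 1 + s)
      have ek : (k : ℤ) = s + (2 * y + 1) := by omega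
      rw [ek] at q ⊢
      have m3 : 0 ≤ ((y : ℤ) - h) * (y + 1 - h) := by
        rcases le_or_gt (h : ℤ) y with h7 | h7
        · exact mul_nonneg (by omega) (by omega)
        · exact mul_nonneg_of_nonpos_of_nonpos (by omega) (by omega)
      nlinarith
  linarith

theorem upper (hk : ∀ i, A i ≤ k) (h0 : A 0 = k) (hanti : Antitone A)
    (hs : ∀ i, s ≤ A i) (hgap : ∀ i, A i ≤ A (i + 1) + d) (hs1 : 1 ≤ s) (hsk : s < k)
    (hd : 1 ≤ d) (r l : ℕ)
    (hn : A (r + 1 + l) = s)
    (hev : Even (∑ i ∈ range (r + 1), A i + ∑ j ∈ range l, A (r + 1 + j)))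
    (hbad : (r + 1) * r + ∑ j ∈ range l, min (A (r + 1 + j)) (r + 1) <
      ∑ i ∈ range (r + 1), A i) (h : ℕ) :
    (s : ℤ) * (r + 1 + l) + 2 ≤ ((k : ℤ) + s + 1) ^ 2 / 4 - h * ((k : ℤ) - s - h * d) := by
  rcases lt_or_ge (r + 1) s with h1 | h1
  · exact caseC hk hs hs1 hsk hd r l h1 hbad h
  · rcases lt_or_ge (r + 1) (A (r + 1)) with h2 | h2
    · exact caseB hk h0 hanti hs hgap hsk hd r l h1 h2 hn hbad h
    · refine caseA hk h0 hs hgap r l hn hev ?_ h
      rwa [Finset.sum_congr rfl (fun j _ => min_eq_left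
        ((hanti (by omega : r + 1 ≤ r + 1 + j)).trans h2))] at hbad

end Upper

theorem hf_facts {k s d : ℕ} (hsk : s < k) (hd : 1 ≤ d) :
    2 * hf k s d * d < (k - s) + d ∧ (k - s) ≤ (2 * hf k s d + 1) * d := by
  unfold hf
  obtain ⟨m, hm⟩ : ∃ m, m = (k - s + d - 1) / d := ⟨_, rfl⟩
  rw [← hm]
  have h1 : m * d ≤ k - s + d - 1 := by rw [hm]; exact Nat.div_mul_le_self _ _
  have h2 : k - s + d - 1 < (m + 1) * d := by
    rw [hm, mul_comm]
    exact Nat.lt_mul_div_succ _ hd
  have h3 : 2 * (m / 2) ≤ m := by omega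
  have h4 : m ≤ 2 * (m / 2) + 1 := by omega
  constructor
  · have := Nat.mul_le_mul_right d h3
    omega
  · have := Nat.mul_le_mul_right d h4
    rw [Nat.add_mul] at h2
    omega

theorem hf_le {k s d : ℕ} (hsk : s < k) (hd : 1 ≤ d) : hf k s d * d ≤ k - s := by
  obtain ⟨h1, h2⟩ := hf_facts hsk hd
  rcases Nat.eq_zero_or_pos (hf k s d) with h | h
  · rw [h]; omega
  · nlinarith

theorem hf_C {k s d : ℕ} (hsk : s < k) (hd : 1 ≤ d) :
    ((hf k s d * (k - s - hf k s d * d) : ℕ) : ℤ) =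
      (hf k s d : ℤ) * ((k : ℤ) - s - hf k s d * d) := by
  have h := hf_le hsk hd
  push_cast [Nat.cast_sub h, Nat.cast_sub hsk.le]
  ring

/-- extension of a finite sequence by the constant `s` -/
def ext (s : ℕ) {n : ℕ} (a : Fin n → ℕ) (i : ℕ) : ℕ := if h : i < n then a ⟨i, h⟩ else s

theorem ext_lt {s n : ℕ} (a : Fin n → ℕ) {i : ℕ} (h : i < n) : ext s a i = a ⟨i, h⟩ := by
  simp [ext, h]

theorem ext_ge {s n : ℕ} (a : Fin n → ℕ) {i : ℕ} (h : n ≤ i) : ext s a i = s := by
  simp [ext, h]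

theorem sum_Iic_ext {s n : ℕ} (a : Fin n → ℕ) (r : Fin n) :
    ∑ i ∈ Finset.Iic r, a i = ∑ i ∈ range (r.1 + 1), ext s a i := by
  apply Finset.sum_bij (fun (i : Fin n) _ => i.1)
  · intro i hi
    rw [mem_Iic] at hi
    rw [mem_range]
    exact Nat.lt_succ_of_le hi
  · intro i _ j _ h
    exact Fin.ext h
  · intro i hi
    rw [mem_range] at hi
    exact ⟨⟨i, by omega⟩, mem_Iic.2 (Fin.le_def.2 (by simp only; omega)), rfl⟩
  · intro i _
    rw [ext_lt a i.2]

theorem sum_Ioi_ext {s n : ℕ} (a : Fin n → ℕ) (r : Fin n) (f : ℕ → ℕ) :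
    ∑ i ∈ Finset.Ioi r, f (a i) = ∑ j ∈ range (n - (r.1 + 1)), f (ext s a (r.1 + 1 + j)) := by
  symm
  apply Finset.sum_bij (fun (j : ℕ) (hj : j ∈ range (n - (r.1 + 1))) =>
    (⟨r.1 + 1 + j, by rw [mem_range] at hj; omega⟩ : Fin n))
  · intro j hj
    rw [mem_Ioi, Fin.lt_def]
    simp only
    omega
  · intro i hi j hj h
    rw [Fin.mk.injEq] at h
    omega
  · intro i hi
    rw [mem_Ioi, Fin.lt_def] at hi
    refine ⟨i.1 - (r.1 + 1), ?_, ?_⟩
    · rw [mem_range]
      have := i.2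
      omega
    · apply Fin.ext
      simp only
      omega
  · intro j hj
    rw [mem_range] at hj
    rw [ext_lt a (by omega)]

open Pool.Agent.R798.EGdeg in
theorem allGraphic {k s d : ℕ} (hs1 : 1 ≤ s) (hsk : s < k) (hd : 1 ≤ d) {n : ℕ} (a : Fin n → ℕ)
    (ha : Lst k s d n a) (hn : thr k s d ≤ n) : Graphic a := by
  classical
  obtain ⟨hanti, hk, ⟨ik, hik⟩, hs, ⟨is, his⟩, hev, hgap⟩ := ha
  have hnpos : 0 < n := lt_of_le_of_lt (Nat.zero_le _) ik.2
  have a0 : a ⟨0, hnpos⟩ = k :=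
    le_antisymm (hk _) (hik ▸ hanti (Fin.le_def.2 (Nat.zero_le _)))
  have an : a ⟨n - 1, by omega⟩ = s :=
    le_antisymm (his ▸ hanti (Fin.le_def.2 (by have := is.2; simp only; omega))) (hs _)
  have Ak : ∀ i, ext s a i ≤ k := by
    intro i
    by_cases h : i < n
    · rw [ext_lt a h]; exact hk _
    · rw [ext_ge a (not_lt.1 h)]; exact hsk.le
  have As : ∀ i, s ≤ ext s a i := by
    intro i
    by_cases h : i < n
    · rw [ext_lt a h]; exact hs _
    · rw [ext_ge a (not_lt.1 h)]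
  have A0 : ext s a 0 = k := by rw [ext_lt a hnpos, a0]
  have Aanti : Antitone (ext s a) := by
    intro i j hij
    by_cases h : j < n
    · rw [ext_lt a h, ext_lt a (lt_of_le_of_lt hij h)]
      exact hanti (Fin.le_def.2 hij)
    · rw [ext_ge a (not_lt.1 h)]
      exact As i
  have Agap : ∀ i, ext s a i ≤ ext s a (i + 1) + d := by
    intro i
    by_cases h : i + 1 < n
    · rw [ext_lt a h, ext_lt a (by omega : i < n)]
      have := hgap ⟨i, by omega⟩ ⟨i + 1, h⟩ rfl
      omega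
    · rw [ext_ge a (not_lt.1 h)]
      have h1 : ext s a i ≤ s := by
        calc ext s a i ≤ ext s a (n - 1) := Aanti (by omega)
          _ = s := by rw [ext_lt a (by omega), an]
      omega
  have key : ∀ r : Fin n, ∑ i ∈ Finset.Iic r, a i ≤
      (r.1 + 1) * r.1 + ∑ k ∈ Finset.Ioi r, min (a k) (r.1 + 1) := by
    intro r
    by_contra hcon
    push Not at hcon
    rw [sum_Iic_ext (s := s), sum_Ioi_ext (s := s) a r (fun x => min x (r.1 + 1))] at hcon
    have hr := r.2
    have hnl : r.1 + 1 + (n - (r.1 + 1)) = n := by omega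
    have hsum : ∑ i ∈ range (r.1 + 1), ext s a i +
        ∑ j ∈ range (n - (r.1 + 1)), ext s a (r.1 + 1 + j) = ∑ i, a i := by
      rw [← Finset.sum_range_add, hnl, ← Fin.sum_univ_eq_sum_range]
      exact Finset.sum_congr rfl (fun i _ => ext_lt a i.2)
    have h1 := upper Ak A0 Aanti As Agap hs1 hsk hd r.1 (n - (r.1 + 1))
      (by rw [hnl]; exact ext_ge a le_rfl) (by rw [hsum]; exact hev) hcon (hf k s d)
    rw [← hf_C hsk hd] at h1
    have h2 : (s : ℤ) * (r.1 + 1 + (n - (r.1 + 1) : ℕ)) = ((s * n : ℕ) : ℤ) := by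
      push_cast
      rw [Nat.cast_sub (by omega)]
      push_cast
      ring
    rw [h2] at h1
    have h3 : s * n + 2 ≤ (k + s + 1) ^ 2 / 4 - hf k s d * (k - s - hf k s d * d) := by
      have h4 : (((k + s + 1) ^ 2 / 4 : ℕ) : ℤ) = ((k : ℤ) + s + 1) ^ 2 / 4 := by
        push_cast
        rfl
      rw [← h4] at h1
      omega
    have h5 : n ≤ ((k + s + 1) ^ 2 / 4 - hf k s d * (k - s - hf k s d * d) - 2) / s := by
      rw [Nat.le_div_iff_mul_le hs1, mul_comm]
      omega
    unfold thr at hn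
    omega
  obtain ⟨G, hG⟩ := erdosGallai a hanti hev key
  refine ⟨G, fun i => ?_⟩
  rw [← hG i]
  have : G.neighborSet i = (↑(nbr G i) : Set (Fin n)) := by
    ext x
    rw [Finset.mem_coe, mem_nbr]
    rfl
  rw [this, Set.ncard_coe_finset]
  rfl

/-- the easy inequality for degree sequences -/
theorem necessity {n : ℕ} {a : Fin n → ℕ} (h : Graphic a) (I : Finset (Fin n)) :
    ∑ i ∈ I, a i ≤ I.card * (I.card - 1) + ∑ i ∈ Iᶜ, a i := by
  classical
  obtain ⟨G, hG⟩ := h
  have hdeg : ∀ i, a i = ∑ j, if G.Adj i j then 1 else 0 := by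
    intro i
    rw [← hG i, ← Finset.card_filter, ← Set.ncard_coe_finset]
    congr 1
    ext x
    simp
  have h1 : ∀ i ∈ I, a i ≤ (I.card - 1) + ∑ j ∈ Iᶜ, if G.Adj i j then 1 else 0 := by
    intro i hi
    rw [hdeg i, ← Finset.sum_add_sum_compl I]
    apply Nat.add_le_add_right
    rw [← Finset.card_filter, ← Finset.card_erase_of_mem hi]
    apply Finset.card_le_card
    intro x hx
    rw [mem_filter] at hx
    exact mem_erase.2 ⟨hx.2.ne', hx.1⟩
  calc ∑ i ∈ I, a i ≤ ∑ i ∈ I, ((I.card - 1) + ∑ j ∈ Iᶜ, if G.Adj i j then 1 else 0) :=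
        sum_le_sum h1
    _ = I.card * (I.card - 1) + ∑ j ∈ Iᶜ, ∑ i ∈ I, if G.Adj i j then 1 else 0 := by
        rw [sum_add_distrib, sum_const, smul_eq_mul, sum_comm]
    _ ≤ _ := by
        apply Nat.add_le_add_left
        apply sum_le_sum
        intro j _
        rw [hdeg j]
        calc ∑ i ∈ I, (if G.Adj i j then 1 else 0) = ∑ i ∈ I, (if G.Adj j i then 1 else 0) := by
              apply sum_congr rfl
              intro i _
              simp only [G.adj_comm]
          _ ≤ _ := sum_le_sum_of_subset (subset_univ _)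

/-- deficits of the first part of the extremal list, counted from its end -/
def ff (u h d δ j : ℕ) : ℕ := if j < h then u - j * d else if j = h then δ else 0

theorem ff_step {u h d δ : ℕ} (hd : 1 ≤ d) (hδ : δ ≤ 1) (hu1 : u ≤ h * d)
    (hu2 : 1 ≤ h → (h - 1) * d + 1 ≤ u) (j : ℕ) :
    ff u h d δ (j + 1) ≤ ff u h d δ j ∧ ff u h d δ j ≤ ff u h d δ (j + 1) + d := by
  unfold ff
  by_cases h1 : j + 1 < h
  · rw [if_pos h1, if_pos (by omega), Nat.add_mul]
    constructor <;> omega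
  · rw [if_neg h1]
    by_cases h2 : j + 1 = h
    · subst h2
      rw [if_pos rfl, if_pos (by omega)]
      have := hu2 (by omega)
      simp only [Nat.add_sub_cancel] at this
      rw [Nat.add_mul] at hu1
      constructor <;> omega
    · rw [if_neg h2, if_neg (by omega)]
      split_ifs <;> omega

theorem ff_sum {u h d δ r : ℕ} (hu : (h - 1) * d ≤ u) (hr : h + 1 ≤ r) :
    2 * ((∑ j ∈ range r, ff u h d δ j : ℕ) : ℤ) = 2 * h * u - d * (h * (h - 1)) + 2 * δ := by
  obtain ⟨l, rfl⟩ := Nat.exists_eq_add_of_le hr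
  rw [Finset.sum_range_add, Finset.sum_range_succ]
  have e1 : ∑ x ∈ range l, ff u h d δ (h + 1 + x) = 0 := by
    apply Finset.sum_eq_zero
    intro x _
    unfold ff
    rw [if_neg (by omega), if_neg (by omega)]
  have e2 : ff u h d δ h = δ := by
    unfold ff
    rw [if_neg (lt_irrefl h), if_pos rfl]
  have e3 : ∀ m, m ≤ h → 2 * ((∑ j ∈ range m, ff u h d δ j : ℕ) : ℤ) = 2 * m * u - d * (m * (m - 1)) := by
    intro m
    induction m with
    | zero => intro _; simp
    | succ m ih =>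
      intro hm
      rw [Finset.sum_range_succ]
      have e4 : ff u h d δ m = u - m * d := by
        unfold ff
        rw [if_pos (by omega)]
      have e5 : m * d ≤ u := le_trans (Nat.mul_le_mul_right d (by omega)) hu
      rw [e4]
      push_cast [Nat.cast_sub e5]
      have := ih (by omega)
      push_cast at this
      nlinarith
  rw [e1, e2]
  push_cast
  have := e3 h le_rfl
  push_cast at this
  linarith

theorem sum_fin_split {n r : ℕ} (hr : r ≤ n) (A : ℕ → ℕ) :
    ∑ i ∈ (univ.filter (fun i : Fin n => i.1 < r)), A i.1 = ∑ i ∈ range r, A i ∧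
    ∑ i ∈ (univ.filter (fun i : Fin n => i.1 < r))ᶜ, A i.1 = ∑ j ∈ range (n - r), A (r + j) := by
  have h1 : ∑ i ∈ (univ.filter (fun i : Fin n => i.1 < r)), A i.1 = ∑ i ∈ range r, A i := by
    apply Finset.sum_bij (fun (i : Fin n) _ => i.1)
    · intro i hi
      rw [mem_filter] at hi
      exact mem_range.2 hi.2
    · intro i _ j _ h
      exact Fin.ext h
    · intro i hi
      rw [mem_range] at hi
      exact ⟨⟨i, by omega⟩, mem_filter.2 ⟨mem_univ _, hi⟩, rfl⟩
    · intro i _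
      rfl
  refine ⟨h1, ?_⟩
  have h2 := Finset.sum_add_sum_compl (univ.filter (fun i : Fin n => i.1 < r)) (fun i => A i.1)
  rw [h1, Fin.sum_univ_eq_sum_range] at h2
  have h3 : ∑ i ∈ range n, A i = ∑ i ∈ range r, A i + ∑ j ∈ range (n - r), A (r + j) := by
    rw [← Finset.sum_range_add]
    congr 2
    omega
  omega

theorem construct {k s d h u w δ r n K : ℕ} (hs1 : 1 ≤ s) (hk : k = s + K) (hd : 1 ≤ d)
    (hδ : δ ≤ 1) (hr : h + 1 + δ ≤ r)
    (hn : r + h + 1 ≤ n ∨ (r + h ≤ n ∧ 1 ≤ h ∧ w = (h - 1) * d))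
    (hu1 : u ≤ h * d) (hu2 : 1 ≤ h → (h - 1) * d + 1 ≤ u)
    (hw1 : w ≤ h * d) (hw2 : (h - 1) * d ≤ w)
    (hc1 : K ≤ u + w + d) (hc2 : u + w + δ ≤ K)
    (D : ℤ) (hD : (r : ℤ) * (k + s + 1 - r) - s * n - (h * (u + w) - d * (h * (h - 1))) - δ = 2 * D)
    (hD1 : 0 < D) :
    ∃ a : Fin n → ℕ, Lst k s d n a ∧ ¬ Graphic a := by
  classical
  obtain ⟨A, hA⟩ : ∃ A : ℕ → ℕ, A = fun i => if i < r then k - ff u h d δ (r - 1 - i)
    else s + ff w h d 0 (i - r) := ⟨_, rfl⟩
  have hw2' : 1 ≤ h → (h - 1) * d ≤ w := fun _ => hw2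
  -- step properties of the second part
  have gstep : ∀ j, ff w h d 0 (j + 1) ≤ ff w h d 0 j ∧ ff w h d 0 j ≤ ff w h d 0 (j + 1) + d := by
    intro j
    unfold ff
    by_cases h1 : j + 1 < h
    · rw [if_pos h1, if_pos (by omega), Nat.add_mul]
      constructor <;> omega
    · rw [if_neg h1]
      by_cases h2 : j + 1 = h
      · subst h2
        rw [if_pos rfl, if_pos (by omega)]
        rw [Nat.add_mul] at hw1
        constructor <;> omega
      · rw [if_neg h2, if_neg (by omega)]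
        split_ifs <;> omega
  have fstep := ff_step (u := u) (h := h) (d := d) (δ := δ) hd hδ hu1 hu2
  have f0 : ff u h d δ 0 ≤ u + δ ∧ u ≤ ff u h d δ 0 := by
    unfold ff
    rcases Nat.eq_zero_or_pos h with h0 | h0
    · subst h0
      simp at hu1 ⊢
      omega
    · rw [if_pos h0]
      omega
  have f0' : ff u h d δ 0 + ff w h d 0 0 ≤ K := by
    unfold ff
    rcases Nat.eq_zero_or_pos h with h0 | h0
    · subst h0
      simp at hu1 hw1 ⊢
      omega
    · rw [if_pos h0, if_pos h0]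
      omega
  have g0 : w ≤ ff w h d 0 0 := by
    unfold ff
    rcases Nat.eq_zero_or_pos h with h0 | h0
    · subst h0
      simp at hw1 ⊢
      omega
    · rw [if_pos h0]
      omega
  have fmono : ∀ j, ff u h d δ j ≤ ff u h d δ 0 := by
    intro j
    induction j with
    | zero => exact le_rfl
    | succ j ih => exact (fstep j).1.trans ih
  have gmono : ∀ j, ff w h d 0 j ≤ ff w h d 0 0 := by
    intro j
    induction j with
    | zero => exact le_rfl
    | succ j ih => exact (gstep j).1.trans ih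
  have hAlt : ∀ i, i < r → A i = k - ff u h d δ (r - 1 - i) := fun i hi => by
    rw [hA]; simp only [if_pos hi]
  have hAge : ∀ j, A (r + j) = s + ff w h d 0 j := fun j => by
    rw [hA]; simp only [if_neg (by omega : ¬ (r + j < r)), Nat.add_sub_cancel_left]
  have hstep : ∀ i, A (i + 1) ≤ A i ∧ A i ≤ A (i + 1) + d := by
    intro i
    rcases lt_trichotomy (i + 1) r with h1 | h1 | h1
    · rw [hAlt _ h1, hAlt i (by omega)]
      have e : r - 1 - i = (r - 1 - (i + 1)) + 1 := by omega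
      rw [e]
      have h2 := fstep (r - 1 - (i + 1))
      have h3 := fmono (r - 1 - (i + 1))
      constructor <;> omega
    · have e1 : A (i + 1) = s + ff w h d 0 0 := by rw [h1]; exact hAge 0
      rw [e1, hAlt i (by omega)]
      have e : r - 1 - i = 0 := by omega
      rw [e]
      constructor <;> omega
    · obtain ⟨j, rfl⟩ := Nat.exists_eq_add_of_le (show r ≤ i by omega)
      rw [hAge j, add_assoc, hAge (j + 1)]
      have := gstep j
      constructor <;> omega
  have hanti : Antitone A := antitone_nat_of_succ_le (fun i => (hstep i).1)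
  have hA0 : A 0 = k := by
    rw [hAlt 0 (by omega)]
    have : ff u h d δ (r - 1 - 0) = 0 := by
      unfold ff
      rw [if_neg (by omega)]
      split_ifs <;> omega
    omega
  have hrn : r ≤ n - 1 := by omega
  have hAn : A (n - 1) = s := by
    obtain ⟨j, hj⟩ := Nat.exists_eq_add_of_le hrn
    rw [hj, hAge j]
    have : ff w h d 0 j = 0 := by
      unfold ff
      rcases hn with hn | ⟨hn, hh, hw⟩
      · rw [if_neg (by omega)]
        split_ifs <;> rfl
      · by_cases h5 : j < h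
        · rw [if_pos h5, hw]
          have : j = h - 1 := by omega
          rw [this]
          omega
        · rw [if_neg h5]
          split_ifs <;> rfl
    omega
  have hAs : ∀ i, s ≤ A i := by
    intro i
    by_cases h1 : i < r
    · rw [hAlt i h1]
      have := fmono (r - 1 - i)
      omega
    · obtain ⟨j, rfl⟩ := Nat.exists_eq_add_of_le (show r ≤ i by omega)
      rw [hAge j]
      omega
  -- sums
  have S1 : ((∑ i ∈ range r, A i : ℕ) : ℤ) = r * k - ((∑ j ∈ range r, ff u h d δ j : ℕ) : ℤ) := by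
    have e1 : ∑ i ∈ range r, A i + ∑ j ∈ range r, ff u h d δ j = r * k := by
      rw [← Finset.sum_range_reflect (fun j => ff u h d δ j) r, ← Finset.sum_add_distrib]
      rw [Finset.sum_congr rfl (g := fun _ => k), sum_const, card_range, smul_eq_mul]
      intro i hi
      rw [hAlt i (mem_range.1 hi)]
      have := fmono (r - 1 - i)
      omega
    have : ((∑ i ∈ range r, A i : ℕ) : ℤ) + ((∑ j ∈ range r, ff u h d δ j : ℕ) : ℤ) = r * k := by
      exact_mod_cast e1
    linarith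
  have S2 : 2 * ((∑ j ∈ range (n - r), A (r + j) : ℕ) : ℤ) =
      2 * ((n : ℤ) - r) * s + (2 * h * w - d * (h * (h - 1))) := by
    have e1 : ∑ j ∈ range (n - r), A (r + j) = (n - r) * s + ∑ j ∈ range (n - r), ff w h d 0 j := by
      rw [Finset.sum_congr rfl (fun j _ => hAge j), Finset.sum_add_distrib, sum_const, card_range,
        smul_eq_mul]
    have e2 : ∑ j ∈ range (n - r), ff w h d 0 j = ∑ j ∈ range (n - r + 1), ff w h d 0 j := by
      rw [Finset.sum_range_succ]
      have : ff w h d 0 (n - r) = 0 := by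
        unfold ff
        rw [if_neg (by omega)]
        split_ifs <;> rfl
      omega
    have e3 := ff_sum (u := w) (h := h) (d := d) (δ := 0) (r := n - r + 1) hw2 (by omega)
    rw [e1, e2]
    push_cast [Nat.cast_sub (by omega : r ≤ n)]
    push_cast at e3
    linarith
  have F1 := ff_sum (u := u) (h := h) (d := d) (δ := δ) (r := r) (by
    rcases Nat.eq_zero_or_pos h with h0 | h0
    · subst h0; simp
    · have := hu2 h0; omega) (by omega)
  have hdiff : ((∑ i ∈ range r, A i : ℕ) : ℤ) - ((∑ j ∈ range (n - r), A (r + j) : ℕ) : ℤ)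
      - r * (r - 1) = 2 * D := by
    rw [← hD]
    nlinarith
  refine ⟨fun i => A i.1, ⟨?_, ?_, ⟨⟨0, by omega⟩, hA0⟩, ?_, ⟨⟨n - 1, by omega⟩, hAn⟩, ?_, ?_⟩, ?_⟩
  · intro i j hij
    exact hanti hij
  · intro i
    exact hA0 ▸ hanti (Nat.zero_le _)
  · intro i
    exact hAs i.1
  · rw [Fin.sum_univ_eq_sum_range]
    have e : ∑ i ∈ range n, A i = ∑ i ∈ range r, A i + ∑ j ∈ range (n - r), A (r + j) := by
      rw [← Finset.sum_range_add]
      congr 2
      omega
    rw [e]
    obtain ⟨y, hy⟩ := Int.even_mul_pred_self (r : ℤ)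
    have : Even (((∑ i ∈ range r, A i + ∑ j ∈ range (n - r), A (r + j) : ℕ) : ℤ)) := by
      refine ⟨D + ((∑ j ∈ range (n - r), A (r + j) : ℕ) : ℤ) + y, ?_⟩
      push_cast at hdiff ⊢
      linarith
    exact_mod_cast this
  · intro i j hij
    have := (hstep i.1).2
    simp only [hij]
    omega
  · intro hG
    have h1 := necessity hG (univ.filter (fun i : Fin n => i.1 < r))
    obtain ⟨e1, e2⟩ := sum_fin_split (by omega : r ≤ n) A
    rw [e1, e2] at h1
    have e3 : (univ.filter (fun i : Fin n => i.1 < r)).card = r := by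
      have := (sum_fin_split (by omega : r ≤ n) (fun _ => 1)).1
      simpa using this
    rw [e3] at h1
    have h2 : ((∑ i ∈ range r, A i : ℕ) : ℤ) ≤ (r : ℤ) * (r - 1) +
        ((∑ j ∈ range (n - r), A (r + j) : ℕ) : ℤ) := by
      have h3 : ((r * (r - 1) : ℕ) : ℤ) = (r : ℤ) * (r - 1) := by
        push_cast [Nat.cast_sub (by omega : 1 ≤ r)]
        ring
      rw [← h3]
      exact_mod_cast h1
    linarith

theorem gbound {k s d : ℕ} (hs1 : 1 ≤ s) (hsk : s < k) (hd : 1 ≤ d) :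
    s * k + 2 + hf k s d * (k - s - hf k s d * d) ≤ (k + s + 1) ^ 2 / 4 := by
  have h6 : (s : ℤ) * k + 2 + (hf k s d : ℤ) * ((k : ℤ) - s - hf k s d * d) ≤
      ((k : ℤ) + s + 1) ^ 2 / 4 := by
    obtain ⟨h, hh⟩ : ∃ h, h = hf k s d := ⟨_, rfl⟩
    rw [← hh]
    have hd' : (1 : ℤ) ≤ d := by exact_mod_cast hd
    have hs1' : (1 : ℤ) ≤ s := by exact_mod_cast hs1
    have hK : (1 : ℤ) ≤ k - s := by omega
    have m2 : (h : ℤ) * h ≤ d * (h * h) := by nlinarith [mul_self_nonneg (h : ℤ)]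
    obtain ⟨y, hy⟩ := Int.even_or_odd' ((k : ℤ) - s)
    rcases hy with hy | hy
    · have q := floorQ ((k : ℤ) + s + 1) (y + s)
      have ek : (k : ℤ) = s + 2 * y := by omega
      rw [ek] at q ⊢
      nlinarith [mul_self_nonneg (y - h : ℤ)]
    · have q := floorQ ((k : ℤ) + s + 1) (y + 1 + s)
      have ek : (k : ℤ) = s + (2 * y + 1) := by omega
      rw [ek] at q ⊢
      have m3 : 0 ≤ ((y : ℤ) - h) * (y + 1 - h) := by
        rcases le_or_gt (h : ℤ) y with h7 | h7
        · exact mul_nonneg (by omega) (by omega)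
        · exact mul_nonneg_of_nonpos_of_nonpos (by omega) (by omega)
      nlinarith
  rw [← hf_C hsk hd] at h6
  have h4 : (((k + s + 1) ^ 2 / 4 : ℕ) : ℤ) = ((k : ℤ) + s + 1) ^ 2 / 4 := by
    push_cast
    rfl
  rw [← h4] at h6
  exact_mod_cast h6

theorem finish {k s d κ h r n E : ℕ} (hs1 : 1 ≤ s) (hk : k = s + κ) (hd : 1 ≤ d)
    (hκ : 1 ≤ κ) (hdκ : d ≤ κ) (f1 : 2 * h * d < κ + d) (f2 : κ ≤ (2 * h + 1) * d)
    (nlow : r + h ≤ n) (nlow2 : (3 ≤ κ ∨ h = 0) → r + h + 1 ≤ n)
    (hrδ : h + 1 + E % 2 ≤ r) (hE2 : 2 ≤ E)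
    (hE : (E : ℤ) = (r : ℤ) * (k + s + 1 - r) - (h * κ - h * (h * d)) - n * s) :
    ∃ a : Fin n → ℕ, Lst k s d n a ∧ ¬ Graphic a := by
  have hED : (E : ℤ) - (E % 2 : ℕ) = 2 * (E / 2 : ℕ) := by omega
  rcases Nat.eq_zero_or_pos h with h0 | h0
  · -- h = 0
    subst h0
    refine construct (h := 0) (u := 0) (w := 0) (δ := E % 2) (r := r) (K := κ) hs1
      hk hd (by omega) (by omega) (Or.inl (by have := nlow2 (Or.inr rfl); omega))
      (by omega) (by omega) (by omega) (by omega) (by omega) (by omega)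
      ((E / 2 : ℕ) : ℤ) ?_ (by omega)
    rw [← hED, hE]
    push_cast
    ring
  · obtain ⟨g, rfl⟩ : ∃ g, h = g + 1 := ⟨h - 1, by omega⟩
    obtain ⟨x, hx⟩ : ∃ x, x = g * d := ⟨_, rfl⟩
    have e1 : (g + 1) * d = x + d := by rw [hx]; ring
    have e2 : 2 * (g + 1) * d = 2 * x + 2 * d := by rw [hx]; ring
    have e3 : (2 * (g + 1) + 1) * d = 2 * x + 3 * d := by rw [hx]; ring
    have e4 : (g + 1 - 1) * d = x := by rw [Nat.add_sub_cancel, hx]
    rw [e2] at f1
    rw [e3] at f2
    rcases le_or_gt κ (2 * x + 2 * d) with h7 | h7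
    · refine construct (h := g + 1) (u := κ - (x + d)) (w := x) (δ := E % 2) (r := r) (K := κ) hs1
        hk hd (by omega) (by omega) (Or.inr ⟨nlow, by omega, e4.symm⟩)
        (by rw [e1]; omega) (fun _ => by rw [e4]; omega) (by rw [e1]; omega)
        (by rw [e4]) (by omega) (by omega) ((E / 2 : ℕ) : ℤ) ?_ (by omega)
      have huw : ((κ - (x + d) : ℕ) : ℤ) + x = κ - d := by omega
      rw [← hED, hE, huw]
      push_cast
      ring
    · refine construct (h := g + 1) (u := x + d) (w := κ - (x + 2 * d)) (δ := E % 2) (r := r)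
        (K := κ) hs1 hk hd (by omega) (by omega) (Or.inl (nlow2 (Or.inl (by omega))))
        (by rw [e1]) (fun _ => by rw [e4]; omega) (by rw [e1]; omega)
        (by rw [e4]; omega) (by omega) (by omega) ((E / 2 : ℕ) : ℤ) ?_ (by omega)
      have huw : ((x + d : ℕ) : ℤ) + ((κ - (x + 2 * d) : ℕ) : ℤ) = κ - d := by omega
      rw [← hED, hE, huw]
      push_cast
      ring

set_option maxHeartbeats 1000000 in
theorem lower {k s d : ℕ} (hs1 : 1 ≤ s) (hsk : s < k) (hd : 1 ≤ d) (hdk : d ≤ k - s)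
    (hne : ¬ (k = 2 ∧ s = 1 ∧ d = 1)) :
    ∃ a : Fin (thr k s d - 1) → ℕ, Lst k s d (thr k s d - 1) a ∧ ¬ Graphic a := by
  obtain ⟨n, hn⟩ : ∃ n, n = thr k s d - 1 := ⟨_, rfl⟩
  rw [← hn]
  obtain ⟨K, rfl⟩ := Nat.exists_eq_add_of_lt hsk
  rcases Nat.eq_zero_or_pos K with hK | hK
  · -- K = 0, that is k = s + 1
    subst hK
    have hd1 : d = 1 := by omega
    subst hd1
    have hs2 : 2 ≤ s := by omega
    have hn1 : n = s + 1 := by
      rw [hn]
      unfold thr
      have e1 : hf (s + 0 + 1) s 1 = 0 := by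
        unfold hf
        have : s + 0 + 1 - s + 1 - 1 = 1 := by omega
        rw [this]
      rw [e1, zero_mul, Nat.sub_zero, Nat.add_sub_cancel]
      have e2 : (s + 0 + 1 + s + 1) ^ 2 / 4 = (s + 1) ^ 2 := by
        have : (s + 0 + 1 + s + 1) ^ 2 = 4 * (s + 1) ^ 2 := by ring
        rw [this]
        omega
      rw [e2]
      apply Nat.div_eq_of_lt_le
      · have : (s + 1) * s + 2 ≤ (s + 1) ^ 2 := by nlinarith
        omega
      · have : (s + 1) ^ 2 < (s + 1 + 1) * s + 2 := by nlinarith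
        have : 0 < (s + 1 + 1) * s := by positivity
        omega
    subst hn1
    obtain ⟨y, hy⟩ : ∃ y, s = 2 * y + s % 2 := ⟨s / 2, by omega⟩
    refine construct (h := 0) (u := 0) (w := 0) (δ := s % 2) (r := s) (K := 1) hs1 (by omega)
      le_rfl (by omega) (by omega) (Or.inl (by omega)) (by omega) (by omega) (by omega)
      (by omega) (by omega) (by omega) (y : ℤ) ?_ (by omega)
    have : (s : ℤ) = 2 * y + (s % 2 : ℕ) := by exact_mod_cast hy
    push_cast
    push_cast at this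
    nlinarith
  · obtain ⟨f1, f2⟩ := hf_facts hsk hd
    have f3 := gbound hs1 hsk hd
    have f4 := hf_C hsk hd
    have eK : s + K + 1 - s = K + 1 := by omega
    unfold thr at hn
    obtain ⟨h, hh⟩ : ∃ h, h = hf (s + K + 1) s d := ⟨_, rfl⟩
    rw [← hh] at f1 f2 f3 f4 hn
    rw [Nat.add_sub_cancel] at hn
    rw [eK] at f1 f2
    obtain ⟨C, hC⟩ : ∃ C, C = h * (s + K + 1 - s - h * d) := ⟨_, rfl⟩
    rw [← hC] at f3 f4 hn
    obtain ⟨Q, hQ⟩ : ∃ Q, Q = (s + K + 1 + s + 1) ^ 2 / 4 := ⟨_, rfl⟩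
    rw [← hQ] at f3 hn
    have f4' : (C : ℤ) = h * ((K : ℤ) + 1) - h * (h * d) := by
      rw [f4]; push_cast; ring
    -- r
    obtain ⟨r, hr⟩ : ∃ r, r = (s + K + 1 + s + 1) / 2 := ⟨_, rfl⟩
    have hQr : (Q : ℤ) = (r : ℤ) * ((s + K + 1 : ℕ) + s + 1 - r) := by
      rcases Nat.even_or_odd' K with ⟨y, hy | hy⟩
      · have e1 : r = s + y + 1 := by omega
        have e2 : Q = (s + y + 1) * (s + y + 1) := by
          rw [hQ, hy]
          have : (s + 2 * y + 1 + s + 1) ^ 2 = 4 * ((s + y + 1) * (s + y + 1)) := by ring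
          rw [this]
          omega
        rw [e1, e2, hy]
        push_cast
        ring
      · have e1 : r = s + y + 1 := by omega
        have e2 : Q = (s + y + 1) * (s + y + 2) := by
          rw [hQ, hy]
          have : (s + (2 * y + 1) + 1 + s + 1) ^ 2 = 4 * ((s + y + 1) * (s + y + 2)) + 1 := by ring
          rw [this]
          omega
        rw [e1, e2, hy]
        push_cast
        ring
    have hn1 : n * s ≤ Q - C - 2 := by rw [hn]; exact Nat.div_mul_le_self _ _
    have hn2 : Q - C - 2 < s * (n + 1) := by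
      rw [hn]
      exact Nat.lt_mul_div_succ _ hs1
    obtain ⟨E, hE⟩ : ∃ E, E = Q - C - n * s := ⟨_, rfl⟩
    have hE2 : 2 ≤ E := by omega
    have hE3 : E % 2 = 1 → 2 ≤ s := by
      intro h7
      by_contra h8
      have : s = 1 := by omega
      subst this
      omega
    have h2h : 2 * h ≤ K + 1 := by
      by_contra hcon
      push Not at hcon
      have : (K + 2) * d ≤ 2 * h * d := Nat.mul_le_mul_right d (by omega)
      nlinarith
    have hrs : 2 * r ≤ s + K + 1 + s + 1 ∧ s + K + 1 + s ≤ 2 * r := by omega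
    obtain ⟨R, hR⟩ : ∃ R, r = s + R := ⟨r - s, by omega⟩
    have hR1 : 2 * R ≤ K + 2 ∧ K + 1 ≤ 2 * R := by omega
    -- quadratic bound
    have quad : (C : ℤ) + (K + 1) ≤ 2 * ((R : ℤ) * (K + 2 - R)) - C := by
      have hd' : (1 : ℤ) ≤ d := by exact_mod_cast hd
      have m2 : (h : ℤ) * h ≤ h * (h * d) := by nlinarith [mul_self_nonneg (h : ℤ)]
      rw [f4']
      rcases Nat.even_or_odd' K with ⟨y, hy | hy⟩
      · have e1 : R = y + 1 := by omega
        rw [e1, hy]
        push_cast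
        have m3 : 0 ≤ ((y : ℤ) - h) * (y + 1 - h) := by
          rcases le_or_gt (h : ℤ) y with h7 | h7
          · exact mul_nonneg (by omega) (by omega)
          · exact mul_nonneg_of_nonpos_of_nonpos (by omega) (by omega)
        have e2 : 2 * (((y : ℤ) + 1) * (2 * y + 2 - (y + 1))) - 2 * (h * (2 * y + 1)) - (2 * y + 1)
          + 2 * (h * h) = 2 * (((y : ℤ) - h) * (y + 1 - h)) + 1 := by ring
        linarith
      · have e1 : R = y + 1 := by omega
        rw [e1, hy]
        push_cast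
        have m3 : 0 ≤ ((y : ℤ) + 1 - h) * (y + 1 - h) := mul_self_nonneg _
        have e2 : 2 * (((y : ℤ) + 1) * (2 * y + 1 + 2 - (y + 1))) - 2 * (h * (2 * y + 1 + 1))
          - (2 * y + 1 + 1) + 2 * (h * h) = 2 * (((y : ℤ) + 1 - h) * (y + 1 - h)) := by ring
        linarith
    have hCQ : (Q : ℤ) - C - 1 ≤ s * (n + 1) := by
      have : Q ≤ s * (n + 1) + C + 1 := by omega
      have h9 : (Q : ℤ) ≤ ((s * (n + 1) + C + 1 : ℕ) : ℤ) := by exact_mod_cast this
      push_cast at h9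
      linarith
    have hs1' : (1 : ℤ) ≤ s := by exact_mod_cast hs1
    have hR2' : ((K : ℤ) + 1) ≤ 2 * R := by exact_mod_cast hR1.2
    have hR1' : 2 * (R : ℤ) ≤ K + 2 := by exact_mod_cast hR1.1
    have h2h' : 2 * (h : ℤ) ≤ K + 1 := by exact_mod_cast h2h
    have nlow : r + h ≤ n := by
      by_contra hcon
      push Not at hcon
      have h8 : (n : ℤ) + 1 ≤ s + R + h := by
        rw [hR] at hcon
        exact_mod_cast hcon
      have h9 := mul_le_mul_of_nonneg_left h8 (by positivity : (0 : ℤ) ≤ s)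
      rw [hQr, hR] at hCQ
      push_cast at hCQ
      have h10 : (1 : ℤ) ≤ K + 2 - R - h := by omega
      have h11 := mul_le_mul_of_nonneg_left h10 (by positivity : (0 : ℤ) ≤ s)
      have e1 : ((s : ℤ) + R) * (s + K + 1 + s + 1 - (s + R)) - s * (s + R + h) =
        s * (K + 2 - R - h) + R * (K + 2 - R) := by ring
      have hK' : (1 : ℤ) ≤ K := by exact_mod_cast hK
      linarith
    have nlow2 : (2 ≤ K ∨ h = 0) → r + h + 1 ≤ n := by
      intro h7
      by_contra hcon
      push Not at hcon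
      have h8 : (n : ℤ) + 1 ≤ s + R + h + 1 := by
        rw [hR] at hcon
        exact_mod_cast hcon
      have h9 := mul_le_mul_of_nonneg_left h8 (by positivity : (0 : ℤ) ≤ s)
      rw [hQr, hR] at hCQ
      push_cast at hCQ
      have h10 : (0 : ℤ) ≤ K + 1 - R - h := by omega
      have h11 := mul_nonneg (by positivity : (0 : ℤ) ≤ s) h10
      have e1 : ((s : ℤ) + R) * (s + K + 1 + s + 1 - (s + R)) - s * (s + R + h + 1) =
        s * (K + 1 - R - h) + R * (K + 2 - R) := by ring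
      rcases h7 with h7 | h7
      · have h7' : (2 : ℤ) ≤ K := by exact_mod_cast h7
        linarith
      · have hC0 : (C : ℤ) = 0 := by rw [f4', h7]; simp
        have hK' : (1 : ℤ) ≤ K := by exact_mod_cast hK
        have h12 : (0 : ℤ) ≤ (R - 1) * (K + 1 - R) := mul_nonneg (by omega) (by omega)
        have e2 : (R : ℤ) * (K + 2 - R) = (R - 1) * (K + 1 - R) + K + 1 := by ring
        linarith
    have hrδ : h + 1 + E % 2 ≤ r := by
      rcases Nat.mod_two_eq_zero_or_one E with h7 | h7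
      · omega
      · have := hE3 h7
        omega
    have hEZ : (E : ℤ) = (Q : ℤ) - C - n * s := by
      have : E + C + n * s = Q := by omega
      have h9 : ((E + C + n * s : ℕ) : ℤ) = (Q : ℤ) := by exact_mod_cast this
      push_cast at h9
      linarith
    have hED : (E : ℤ) - (E % 2 : ℕ) = 2 * (E / 2 : ℕ) := by omega
    refine finish (κ := K + 1) (h := h) (r := r) (n := n) (E := E) hs1 (by omega) hd (by omega)
      (by omega) f1 f2 nlow (fun h7 => nlow2 (by omega)) hrδ hE2 ?_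
    rw [hEZ, hQr, f4']
    push_cast
    ring

theorem exceptional {n : ℕ} (a : Fin n → ℕ) (ha : Lst 2 1 1 n a) : Graphic a := by
  rcases le_or_gt 3 n with h | h
  · refine allGraphic le_rfl (by norm_num) le_rfl a ha ?_
    have : thr 2 1 1 = 3 := by decide
    omega
  · exfalso
    obtain ⟨-, -, ⟨i, hi⟩, -, ⟨j, hj⟩, hev, -⟩ := ha
    interval_cases n
    · exact i.elim0
    · have : i = j := Subsingleton.elim _ _
      subst this
      omega
    · rw [Fin.sum_univ_two] at hev
      have hij : i ≠ j := by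
        rintro rfl
        omega
      fin_cases i <;> fin_cases j <;> simp_all <;> revert hev <;> decide

/-- The threshold `N(k, s, d)` for all `k > s ≥ 1` and `1 ≤ d ≤ k - s`. -/
theorem result (k s d : ℕ) (hs : 1 ≤ s) (hsk : s < k) (hd : 1 ≤ d) (hdk : d ≤ k - s) :
    (¬ (k = 2 ∧ s = 1 ∧ d = 1) →
      IsLeast {N : ℕ | ∀ n, N ≤ n → ∀ a : Fin n → ℕ, Lst k s d n a → Graphic a} (thr k s d)) ∧
    (k = 2 ∧ s = 1 ∧ d = 1 → ∀ n (a : Fin n → ℕ), Lst k s d n a → Graphic a) := by
  constructor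
  · intro hne
    refine ⟨fun n hn a ha => allGraphic hs hsk hd a ha hn, ?_⟩
    intro N hN
    by_contra hcon
    push Not at hcon
    obtain ⟨a, ha, hna⟩ := lower hs hsk hd hdk hne
    exact hna (hN _ (by omega) a ha)
  · rintro ⟨rfl, rfl, rfl⟩ n a ha
    exact exceptional a ha

end Pool.Agent.Results.MP_5122c5_co.Threshold
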